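import Pool.Agent.Helper72.RA.Defs2

namespace Pool.Agent.Helper72.RA

open Real Finset MeasureTheory Filter

theorem st_HCNT (h : ST_LEV) : ST_HCNT := by
  classical
  filter_upwards [h] with q hq
  obtain ⟨hq9, -, -, -, -, -, hmono, h3, -, hU, -⟩ := hq
  intro m _ _ u hu θ hG
  have hq1 : (1 : ℝ) ≤ q := by
    have : (1 : ℕ) ≤ q := le_trans (by norm_num) hq9
    exact_mod_cast this
  set P : ℝ := (Pl q u : ℝ) with hP
  have hP3 : (3 : ℝ) ≤ P := by
    have h4 := h3 u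
    have h5 : (1 : ℝ) ≤ (q : ℝ) ^ 9 := one_le_pow₀ hq1
    linarith
  have hP0 : 0 < P := by linarith
  have hPU : P ≤ 6 * (q : ℝ) ^ 1350 := by
    have h4 : (Pl q u : ℝ) ≤ (Pl q (UU q) : ℝ) := by exact_mod_cast hmono u (UU q) hu
    exact h4.trans hU
  have hlen : qi q 1970 ≤ (3 / 2) / P := by
    unfold qi
    have h6 : (q : ℝ) ^ 1350 * 4 ≤ (q : ℝ) ^ 1970 := by
      have h7 : (4 : ℝ) ≤ q := by
        have : (4 : ℕ) ≤ q := le_trans (by norm_num) hq9
        exact_mod_cast this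
      have h8 : (4 : ℝ) ≤ (q : ℝ) ^ 620 := h7.trans (le_self_pow₀ hq1 (by norm_num))
      have h9 : (q : ℝ) ^ 1970 = (q : ℝ) ^ 1350 * (q : ℝ) ^ 620 := by rw [← pow_add]
      rw [h9]
      exact mul_le_mul_of_nonneg_left h8 (by positivity)
    rw [le_div_iff₀ hP0, inv_mul_le_iff₀ (by positivity)]
    linarith
  have hpi : (3 : ℝ) < π := pi_gt_three
  have h3P : 3 / P ≤ 1 := by rw [div_le_one hP0]; exact hP3
  have h3P' : 0 < (3 / 2) / P := by positivity
  have h32 : 3 / P = (3 / 2) / P + (3 / 2) / P := by ring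
  -- the counting bound
  have hc : ∀ j < 4, ∀ x : ℝ, 0 ≤ x → x + (3 / 2) / P ≤ π →
      (cnt j θ x (x + (3 / 2) / P) : ℝ) ≤ 51 / 50 * ((m : ℝ) ^ 2 / 8 * (((3 / 2) / P) / π)) := by
    intro j hj x hx hxy
    have := (hG.reg j hj x (x + (3 / 2) / P) hx hxy (by linarith)).2
    have e : x + 3 / 2 / P - x = 3 / 2 / P := by ring
    rwa [e] at this
  set B : ℝ := 51 / 50 * ((m : ℝ) ^ 2 / 8 * (((3 / 2) / P) / π)) with hB
  set S : Finset (Fin (NN m)) := univ.filter fun t : Fin (NN m) =>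
    3 / 2 ≤ phi (θ t) * P ∧ phi (θ t) * P < 3 with hS
  let F1 : ℕ → Finset (Fin (NN m)) := fun j => univ.filter fun t : Fin (NN m) =>
    (t : ℕ) % 4 = j ∧ (3 / 2) / P ≤ θ t ∧ θ t ≤ (3 / 2) / P + (3 / 2) / P
  let F2 : ℕ → Finset (Fin (NN m)) := fun j => univ.filter fun t : Fin (NN m) =>
    (t : ℕ) % 4 = j ∧ (π - 3 / P) ≤ θ t ∧ θ t ≤ (π - 3 / P) + (3 / 2) / P
  have hsub : S ⊆ (range 4).biUnion (fun j => F1 j ∪ F2 j) := by
    intro t ht
    rw [hS, mem_filter] at ht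
    obtain ⟨-, h1, h2⟩ := ht
    rw [mem_biUnion]
    refine ⟨(t : ℕ) % 4, mem_range.2 (Nat.mod_lt _ (by norm_num)), ?_⟩
    rw [mem_union]
    have h1' : (3 / 2) / P ≤ phi (θ t) := by rwa [div_le_iff₀ hP0]
    have h2' : phi (θ t) < 3 / P := by rwa [lt_div_iff₀ hP0]
    by_cases hlt : θ t < 1
    · left
      rw [mem_filter]
      have : phi (θ t) = θ t := by rw [phi, if_pos hlt]
      rw [this] at h1' h2'
      exact ⟨mem_univ _, rfl, h1', by linarith⟩
    · right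
      rw [mem_filter]
      have : phi (θ t) = π - θ t := by rw [phi, if_neg hlt]
      rw [this] at h1' h2'
      exact ⟨mem_univ _, rfl, by linarith, by linarith⟩
  have hF1 : ∀ j < 4, ((F1 j).card : ℝ) ≤ B := by
    intro j hj
    have := hc j hj ((3 / 2) / P) h3P'.le (by linarith)
    exact this
  have hF2 : ∀ j < 4, ((F2 j).card : ℝ) ≤ B := by
    intro j hj
    have := hc j hj (π - 3 / P) (by linarith) (by linarith)
    exact this
  have hcard : (S.card : ℝ) ≤ 8 * B := by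
    have h4 : S.card ≤ ∑ j ∈ range 4, (F1 j ∪ F2 j).card :=
      (card_le_card hsub).trans card_biUnion_le
    have h5 : (S.card : ℝ) ≤ ∑ j ∈ range 4, (((F1 j).card : ℝ) + ((F2 j).card : ℝ)) := by
      calc (S.card : ℝ) ≤ ((∑ j ∈ range 4, (F1 j ∪ F2 j).card : ℕ) : ℝ) := by exact_mod_cast h4
        _ = ∑ j ∈ range 4, ((F1 j ∪ F2 j).card : ℝ) := by push_cast; rfl
        _ ≤ _ := by
          refine sum_le_sum fun j _ => ?_
          exact_mod_cast card_union_le _ _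
    have h6 : ∑ j ∈ range 4, (((F1 j).card : ℝ) + ((F2 j).card : ℝ)) ≤ ∑ j ∈ range 4, (B + B) :=
      sum_le_sum fun j hj => add_le_add (hF1 j (mem_range.1 hj)) (hF2 j (mem_range.1 hj))
    have h7 : ∑ j ∈ range 4, (B + B) = 8 * B := by
      rw [sum_const, card_range]; simp; ring
    linarith
  have hfin : 8 * B ≤ (m : ℝ) ^ 2 / P := by
    have e : 8 * B = (m : ℝ) ^ 2 / P * (153 / 100 / π) := by
      rw [hB]; field_simp; ring
    rw [e]
    have h5 : 153 / 100 / π ≤ 1 := by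
      rw [div_le_one (by linarith)]; linarith
    exact mul_le_of_le_one_right (by positivity) h5
  exact hcard.trans hfin

end Pool.Agent.Helper72.RA
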