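import Pool.Agent.Helper72.RA.Defs2

namespace Pool.Agent.Helper72.RA

open Real Finset MeasureTheory Filter

theorem HLEV_top_mul {q : ℕ} (hq : 1 ≤ q) : top q * (Pl q (UU q) : ℝ) = 3 / 2 := by
  have h : (0 : ℝ) < (Pl q (UU q) : ℝ) := by
    have : 0 < Pl q (UU q) := by unfold Pl; positivity
    exact_mod_cast this
  unfold top
  field_simp

theorem st_HLEV (_h : ST_LEV) : ST_HLEV := by
  filter_upwards [eventually_ge_atTop 1] with q hq
  intro φ h1 h2
  have hq' : (0 : ℝ) < q := by exact_mod_cast hq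
  have hex : ∃ u, 3 / 2 ≤ φ * (Pl q u : ℝ) := by
    refine ⟨UU q, ?_⟩
    rw [← HLEV_top_mul hq]
    exact mul_le_mul_of_nonneg_right h1 (Nat.cast_nonneg _)
  classical
  have hle : Nat.find hex ≤ UU q := by
    apply Nat.find_min'
    rw [← HLEV_top_mul hq]
    exact mul_le_mul_of_nonneg_right h1 (Nat.cast_nonneg _)
  refine ⟨Nat.find hex, hle, Nat.find_spec hex, ?_⟩
  rcases Nat.eq_zero_or_pos (Nat.find hex) with h0 | hpos
  · rw [h0]
    have : (Pl q 0 : ℝ) = 3 * (q : ℝ) ^ 9 := by unfold Pl; push_cast; ring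
    rw [this]
    have h3 : φ * (3 * (q : ℝ) ^ 9) < qi q 9 * (3 * (q : ℝ) ^ 9) :=
      mul_lt_mul_of_pos_right h2 (by positivity)
    have h4 : qi q 9 * (3 * (q : ℝ) ^ 9) = 3 := by
      unfold qi; field_simp
    linarith
  · have h3 := Nat.find_min hex (m := Nat.find hex - 1) (by omega)
    rw [not_le] at h3
    have h4 : (Pl q (Nat.find hex) : ℝ) = 2 * (Pl q (Nat.find hex - 1) : ℝ) := by
      obtain ⟨k, hk⟩ : ∃ k, Nat.find hex = k + 1 := ⟨Nat.find hex - 1, by omega⟩
      rw [hk, Nat.add_sub_cancel]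
      unfold Pl; push_cast; ring
    rw [h4]
    linarith

end Pool.Agent.Helper72.RA
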